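import Pool.Agent.HC.Fin

/-!
# The oriented Ramsey number of the oriented hypercube is at most `2^(d + o(d))`

For every `ε > 0` and every large enough `d`, every tournament with at least `2^((1+ε)d)` vertices
contains a copy of the oriented hypercube of dimension `d` (which has `2^d` vertices).
-/

namespace Pool.Agent.Results.MP_f69362_co.CubeExponentOne

/-- A tournament on the vertex set `V` (`T a b` means that `a b` is an arc): there are no loops,
and of any two distinct vertices exactly one dominates the other. -/
def IsTournament {V : Type} (T : V → V → Prop) : Prop :=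
  (∀ a, ¬ T a a) ∧ ∀ a b, a ≠ b → (T a b ↔ ¬ T b a)

/-- The arcs of the oriented hypercube: `y` arises from `x` by changing a single coordinate from
`0` to `1`. -/
def CubeArc {d : ℕ} (x y : Fin d → Bool) : Prop :=
  ∃ i : Fin d, x i = false ∧ y = Function.update x i true

theorem result (ε : ℝ) (hε : 0 < ε) : ∃ d0 : ℕ, ∀ d : ℕ, d0 ≤ d →
    ∀ (V : Type) [Fintype V] (T : V → V → Prop), IsTournament T →
    (2 : ℝ) ^ ((1 + ε) * d) ≤ Fintype.card V →
    ∃ φ : (Fin d → Bool) → V, Function.Injective φ ∧
      ∀ x y : Fin d → Bool, CubeArc x y → T (φ x) (φ y) := by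
  classical
  obtain ⟨d0, hd0⟩ := Pool.Agent.HC.cube_upper1 hε
  refine ⟨d0, fun d hd V _ T hT hN => ?_⟩
  obtain ⟨φ, hφ, hφ2⟩ := hd0 d hd V T hT hN
  refine ⟨fun x => φ (Finset.univ.filter (fun i => x i = true)), ?_, ?_⟩
  · intro x y hxy
    have h := hφ hxy
    funext i
    have h1 : (i ∈ Finset.univ.filter (fun i => x i = true)) ↔
        (i ∈ Finset.univ.filter (fun i => y i = true)) := by rw [h]
    simp only [Finset.mem_filter, Finset.mem_univ, true_and] at h1
    cases hx : x i <;> cases hy : y i <;> simp_all
  · rintro x y ⟨i, hi, rfl⟩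
    have h := hφ2 (Finset.univ.filter (fun j => x j = true)) i (by simp [hi])
    have h2 : (Finset.univ.filter (fun j => Function.update x i true j = true)) =
        insert i (Finset.univ.filter (fun j => x j = true)) := by
      ext j
      by_cases hj : j = i
      · subst hj; simp
      · simp [Function.update_of_ne hj, hj]
    simp only [h2]
    exact h

end Pool.Agent.Results.MP_f69362_co.CubeExponentOne
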