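import Pool.Agent.H70.AH.Final

/-!
# Tournaments without the oriented hypercube contain all small tournaments

Every tournament with at least `2^(d + 6 h (log₂(d+1) + 1)²)` vertices contains a copy of the
oriented hypercube of dimension `d` or a copy of every tournament with `h` vertices.
-/

namespace Pool.Agent.Results.MP_f69362_co.CubeOrUniversal

/-- A tournament on the vertex set `V` (`T a b` means that `a b` is an arc): there are no loops,
and of any two distinct vertices exactly one dominates the other. -/
def IsTournament {V : Type} (T : V → V → Prop) : Prop :=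
  (∀ a, ¬ T a a) ∧ ∀ a b, a ≠ b → (T a b ↔ ¬ T b a)

/-- The arcs of the oriented hypercube: `y` arises from `x` by changing a single coordinate from
`0` to `1`. -/
def CubeArc {d : ℕ} (x y : Fin d → Bool) : Prop :=
  ∃ i : Fin d, x i = false ∧ y = Function.update x i true

theorem result (d h : ℕ) (V : Type) [Fintype V] (T : V → V → Prop) (hT : IsTournament T)
    (hN : (2 : ℝ) ^ ((d : ℝ) + 6 * h * (Real.logb 2 (d + 1) + 1) ^ 2) ≤ Fintype.card V) :
    (∃ φ : (Fin d → Bool) → V, Function.Injective φ ∧
      ∀ x y : Fin d → Bool, CubeArc x y → T (φ x) (φ y)) ∨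
    ∀ H : Fin h → Fin h → Prop, IsTournament H →
      ∃ ψ : Fin h → V, Function.Injective ψ ∧ ∀ i j : Fin h, H i j → T (ψ i) (ψ j) := by
  classical
  by_cases hall : ∀ H : Fin h → Fin h → Prop, IsTournament H →
      ∃ ψ : Fin h → V, Function.Injective ψ ∧ ∀ i j : Fin h, H i j → T (ψ i) (ψ j)
  · exact Or.inr hall
  · left
    push Not at hall
    obtain ⟨H, hH, hno⟩ := hall
    have hfree : ¬ ∃ f : Fin h → V, ∀ i j, H i j → T (f i) (f j) := by
      rintro ⟨f, hf⟩
      have hinj : Function.Injective f := by
        intro i j hij
        by_contra hne
        by_cases h1 : H i j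
        · have := hf i j h1
          rw [hij] at this
          exact hT.1 _ this
        · have h2 : H j i := (hH.2 j i (Ne.symm hne)).2 h1
          have := hf j i h2
          rw [hij] at this
          exact hT.1 _ this
      obtain ⟨i, j, h1, h2⟩ := hno f hinj
      exact h2 (hf i j h1)
    obtain ⟨φ, hφ, hφ2⟩ := Pool.Agent.H70.AH.main d h V T hT H hH hfree hN
    refine ⟨fun x => φ (Finset.univ.filter (fun i => x i = true)), ?_, ?_⟩
    · intro x y hxy
      have h := hφ hxy
      funext i
      have h1 : (i ∈ Finset.univ.filter (fun i => x i = true)) ↔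
          (i ∈ Finset.univ.filter (fun i => y i = true)) := by rw [h]
      simp only [Finset.mem_filter, Finset.mem_univ, true_and] at h1
      cases hx : x i <;> cases hy : y i <;> simp_all
    · rintro x y ⟨i, hi, rfl⟩
      have h := hφ2 (Finset.univ.filter (fun j => x j = true)) i (by simp [hi])
      have h2 : (Finset.univ.filter (fun j => Function.update x i true j = true)) =
          insert i (Finset.univ.filter (fun j => x j = true)) := by
        ext j
        by_cases hj : j = i
        · subst hj; simp
        · simp [Function.update_of_ne hj, hj]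
      simp only [h2]
      exact h

end Pool.Agent.Results.MP_f69362_co.CubeOrUniversal
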